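import Pool.Agent.Helper14.GS.StD

/-!
# Project GS (MP_627c93_nt), module D7: counting
-/

set_option autoImplicit false

namespace Pool.Agent.Helper84.GS

open Pool.Agent.Helper14.GS Finset

private def dg {T K : ℕ} : Option (Fin T × Fin (K + T)) → ℕ
  | none => K
  | some am => (am.2 : ℕ) - T

private theorem card_pairs {T K : ℕ} (n : ℕ) :
    ((univ : Finset (Fin T × Fin (K + T))).filter (fun am => (am.2 : ℕ) < n)).card ≤ T * n := by
  calc ((univ : Finset (Fin T × Fin (K + T))).filter (fun am => (am.2 : ℕ) < n)).card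
      ≤ ((univ : Finset (Fin T)) ×ˢ range n).card := by
        apply card_le_card_of_injOn (fun am => (am.1, (am.2 : ℕ)))
        · intro am ham
          have h := (mem_filter.1 (mem_coe.1 ham)).2
          exact mem_coe.2 (mem_product.2 ⟨mem_univ _, mem_range.2 h⟩)
        · intro a _ b _ hab
          simp only [Prod.mk.injEq] at hab
          exact Prod.ext hab.1 (Fin.ext hab.2)
    _ = T * n := by rw [card_product, card_univ, Fintype.card_fin, card_range]

private theorem count {ι : Type} [Fintype ι] {T K : ℕ} (φ : ι → Option (Fin T × Fin (K + T)))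
    (hφ : ∀ ρ ρ' : ι, φ ρ = φ ρ' → φ ρ ≠ none → ρ = ρ') (hM : T * (T + K) ≤ Fintype.card ι)
    {d : ℕ} (hd : d < K) :
    T * (K - 1 - d) ≤ ((univ : Finset ι).filter (fun ρ => d < dg (φ ρ))).card := by
  classical
  have hne : ∀ ρ ∈ (univ : Finset ι).filter (fun ρ => ¬ d < dg (φ ρ)), φ ρ ≠ none := by
    intro ρ hρ h
    have := (mem_filter.1 hρ).2
    rw [h] at this
    exact this hd
  have h1 : ((univ : Finset ι).filter (fun ρ => ¬ d < dg (φ ρ))).card ≤ T * (T + (d + 1)) := by
    calc ((univ : Finset ι).filter (fun ρ => ¬ d < dg (φ ρ))).card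
        ≤ ((((univ : Finset (Fin T × Fin (K + T))).filter
            (fun am => (am.2 : ℕ) < T + (d + 1)))).image some).card := by
          apply card_le_card_of_injOn φ
          · intro ρ hρ
            have hρ' := mem_coe.1 hρ
            obtain ⟨am, ham⟩ := Option.ne_none_iff_exists'.1 (hne ρ hρ')
            have h2 := (mem_filter.1 hρ').2
            rw [ham] at h2
            have h3 : ¬ d < (am.2 : ℕ) - T := h2
            rw [ham]
            apply mem_coe.2
            apply mem_image_of_mem
            rw [mem_filter]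
            exact ⟨mem_univ _, by omega⟩
          · intro ρ hρ ρ' _ h
            exact hφ ρ ρ' h (hne ρ (mem_coe.1 hρ))
      _ ≤ ((univ : Finset (Fin T × Fin (K + T))).filter
            (fun am => (am.2 : ℕ) < T + (d + 1))).card := card_image_le
      _ ≤ T * (T + (d + 1)) := card_pairs _
  have h2 := card_filter_add_card_filter_not (s := (univ : Finset ι)) (fun ρ => d < dg (φ ρ))
  rw [card_univ] at h2
  have h3 : T * (T + K) = T * (K - 1 - d) + T * (T + (d + 1)) := by
    rw [← Nat.mul_add]
    congr 1
    omega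
  omega

theorem D7 : StD7 := by
  intro ι _ T K φ hφ hM
  change T * (K * (K - 1) / 2) ≤ ∑ ρ, dg (φ ρ)
  have h1 : ∀ n : ℕ, (∑ d ∈ range K, if d < n then 1 else 0) ≤ n := by
    intro n
    rw [← card_filter]
    calc ((range K).filter (fun d => d < n)).card ≤ (range n).card := by
          apply card_le_card
          intro d hd
          exact mem_range.2 (mem_filter.1 hd).2
      _ = n := card_range n
  calc T * (K * (K - 1) / 2) = ∑ d ∈ range K, T * (K - 1 - d) := by
        rw [← mul_sum, sum_range_reflect (fun j => j) K, sum_range_id]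
    _ ≤ ∑ d ∈ range K, ((univ : Finset ι).filter (fun ρ => d < dg (φ ρ))).card :=
        sum_le_sum fun d hd => count φ hφ hM (mem_range.1 hd)
    _ = ∑ d ∈ range K, ∑ ρ, (if d < dg (φ ρ) then 1 else 0) := by
        refine sum_congr rfl fun d _ => ?_
        rw [card_filter]
    _ = ∑ ρ, ∑ d ∈ range K, (if d < dg (φ ρ) then 1 else 0) := sum_comm
    _ ≤ ∑ ρ, dg (φ ρ) := sum_le_sum fun ρ _ => h1 _

end Pool.Agent.Helper84.GS
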